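import Mathlib
import Pool.Agent.Work.MP_b62148_ag.D9.IrredNe
import Pool.Agent.Work.MP_b62148_ag.Nonic.Main

/-!
General conic bundle over the plane with a smooth discriminant curve of degree nine, even class:
`X = {(x, A) : A x = 0, tr (B_i A) = 0 (i = 0, 1, 2), x . N(A) = 0}` in `P^2 x P(Mat_3)`, where
`N(A)` is a triple of quadratic forms in the entries of `A`; and the existence of such a bundle
with dense rational points over the general plane curve of degree nine.
-/

namespace Pool.Agent.Results.MP_b62148_ag.NonicEven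

open MvPolynomial Matrix

universe u v

/-- Three matrices `B_i` and three quadratic forms `N_j` in the entries of a `3 x 3` matrix:
`N_j(A) = sum of n_j(s, t) A_s A_t` over the positions `s, t`. -/
structure Datum (K : Type u) where
  /-- the three matrices -/
  B : Fin 3 → Matrix (Fin 3) (Fin 3) K
  /-- the coefficients of the three quadratic forms -/
  n : Fin 3 → Fin 3 × Fin 3 → Fin 3 × Fin 3 → K

namespace Datum

/-- All coefficients. -/
def coeffs {K : Type u} (X : Datum K) :
    (Fin 3 × Fin 3 × Fin 3) ⊕ (Fin 3 × (Fin 3 × Fin 3) × Fin 3 × Fin 3) → K :=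
  Sum.elim (fun t => X.B t.1 t.2.1 t.2.2) fun t => X.n t.1 t.2.1 t.2.2

variable {K : Type u} [Field K] (X : Datum K)

/-- Extension of scalars. -/
def extend (Ω : Type v) [Field Ω] [Algebra K Ω] : Datum Ω where
  B i := (X.B i).map (algebraMap K Ω)
  n j s t := algebraMap K Ω (X.n j s t)

/-- `x . N(A, A')` with `N_j(A, A') = sum of n_j(s, t) A_s A'_t`. -/
def pairing (x : Fin 3 → K) (A A' : Matrix (Fin 3) (Fin 3) K) : K :=
  ∑ j, x j * ∑ s : Fin 3 × Fin 3, ∑ t : Fin 3 × Fin 3, X.n j s t * A s.1 s.2 * A' t.1 t.2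

/-- The six linear equations for `A` over the point `x`. -/
def OnPlane (x : Fin 3 → K) (A : Matrix (Fin 3) (Fin 3) K) : Prop :=
  A *ᵥ x = 0 ∧ ∀ i, (X.B i * A).trace = 0

/-- `(x, A)` is a point of `X`. -/
def IsPoint (x : Fin 3 → K) (A : Matrix (Fin 3) (Fin 3) K) : Prop :=
  x ≠ 0 ∧ A ≠ 0 ∧ X.OnPlane x A ∧ X.pairing x A A = 0

/-- All fibres over the plane are conics: the six linear equations are independent, so that their
solutions are a space of dimension three, and the quadratic form is not zero on it. -/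
def ConicFibres : Prop :=
  ∀ x : Fin 3 → K, x ≠ 0 →
    (∀ y z : Fin 3 → K, ∃ A : Matrix (Fin 3) (Fin 3) K, A *ᵥ x = y ∧
      ∀ i, (X.B i * A).trace = z i) ∧
    ∃ A : Matrix (Fin 3) (Fin 3) K, X.OnPlane x A ∧ X.pairing x A A ≠ 0

/-- The fibre over `x` is a smooth conic: only `A = 0` is orthogonal to all solutions of the linear
equations. -/
def SmoothConic (x : Fin 3 → K) : Prop :=
  ∀ A : Matrix (Fin 3) (Fin 3) K, X.OnPlane x A →
    (∀ A' : Matrix (Fin 3) (Fin 3) K, X.OnPlane x A' →
      X.pairing x A A' + X.pairing x A' A = 0) → A = 0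

/-- `X` is smooth of dimension three: at every point the derivative of the seven equations is
onto. -/
def SmoothThreefold : Prop :=
  ∀ (x : Fin 3 → K) (A : Matrix (Fin 3) (Fin 3) K), X.IsPoint x A →
    ∀ (y z : Fin 3 → K) (c : K), ∃ (x' : Fin 3 → K) (A' : Matrix (Fin 3) (Fin 3) K),
      A' *ᵥ x + A *ᵥ x' = y ∧ (∀ i, (X.B i * A').trace = z i) ∧
        X.pairing x' A A + (X.pairing x A' A + X.pairing x A A') = c

/-- `X` is irreducible: if the product of two polynomials vanishes on `X`, one of them does. -/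
def Irreducible : Prop :=
  ∀ G₁ G₂ : MvPolynomial (Fin 3 ⊕ (Fin 3 × Fin 3)) K,
    (∀ x A, X.IsPoint x A → eval (Sum.elim x fun s => A s.1 s.2) (G₁ * G₂) = 0) →
    (∀ x A, X.IsPoint x A → eval (Sum.elim x fun s => A s.1 s.2) G₁ = 0) ∨
      ∀ x A, X.IsPoint x A → eval (Sum.elim x fun s => A s.1 s.2) G₂ = 0

/-- Over the algebraic closure, `X` is irreducible and smooth of dimension three, and all its fibres
over the plane are conics. -/
def IsConicBundle : Prop :=
  (X.extend (AlgebraicClosure K)).Irreducible ∧ (X.extend (AlgebraicClosure K)).SmoothThreefold ∧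
    (X.extend (AlgebraicClosure K)).ConicFibres

/-- Over the algebraic closure, the curve `D = 0` is a smooth plane curve of degree nine, and its
points are the points of the plane over which the fibre is not a smooth conic. -/
def IsDiscriminant (D : MvPolynomial (Fin 3) K) : Prop :=
  D.IsHomogeneous 9 ∧ ∀ x : Fin 3 → AlgebraicClosure K, x ≠ 0 →
    (∃ j, aeval x (pderiv j D) ≠ 0) ∧
      (aeval x D = 0 ↔ ¬ (X.extend (AlgebraicClosure K)).SmoothConic x)

/-- The plane cubic curve `J`: the lines `l` with `det (l B_0, l B_1, l B_2) = 0`. -/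
def cubic : Set (Projectivization K (Fin 3 → K)) :=
  {p | (Matrix.of fun i => p.rep ᵥ* X.B i).det = 0}

/-- The points of `X` with coordinates in `K` are Zariski dense in `X`: every polynomial over `K` in
the coordinates of `x` and `A` that vanishes at all of them vanishes at every point of `X` with
coordinates in the algebraic closure. -/
def PointsDense : Prop :=
  ∀ G : MvPolynomial (Fin 3 ⊕ (Fin 3 × Fin 3)) K,
    (∀ x A, X.IsPoint x A → eval (Sum.elim x fun s => A s.1 s.2) G = 0) →
    ∀ x A, (X.extend (AlgebraicClosure K)).IsPoint x A →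
      aeval (Sum.elim x fun s => A s.1 s.2) G = 0

/-- The polynomial `Φ` is not zero at the coefficients of `X`. -/
def Avoids [CharZero K]
    (Φ : MvPolynomial ((Fin 3 × Fin 3 × Fin 3) ⊕ (Fin 3 × (Fin 3 × Fin 3) × Fin 3 × Fin 3)) ℚ) :
    Prop :=
  aeval X.coeffs Φ ≠ 0

/-- Over some finite extension `L` of the field, `J` has infinitely many points and the points of
`X` are Zariski dense. -/
def DenseOverExtension : Prop :=
  ∃ L : IntermediateField K (AlgebraicClosure K), FiniteDimensional K L ∧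
    (X.extend L).cubic.Infinite ∧ (X.extend L).PointsDense

end Datum

/-- The polynomial `Ψ` is not zero at the coefficients of the form `D` of degree nine. -/
def FormAvoids {K : Type u} [Field K] [CharZero K]
    (Ψ : MvPolynomial {e : Fin 3 →₀ ℕ // e.degree = 9} ℚ) (D : MvPolynomial (Fin 3) K) : Prop :=
  aeval (fun e => coeff e.1 D) Ψ ≠ 0

/-- Over some finite extension `L` of the field, the curve `D = 0` is the discriminant curve of a
datum `X` such that `Φ(X)` is not zero, `J` has infinitely many points and the points of `X` are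
Zariski dense. -/
def DiscriminantOverExtension {K : Type u} [Field K] [CharZero K]
    (Φ : MvPolynomial ((Fin 3 × Fin 3 × Fin 3) ⊕ (Fin 3 × (Fin 3 × Fin 3) × Fin 3 × Fin 3)) ℚ)
    (D : MvPolynomial (Fin 3) K) : Prop :=
  ∃ L : IntermediateField K (AlgebraicClosure K), FiniteDimensional K L ∧
    ∃ X : Datum L, X.Avoids Φ ∧ X.IsDiscriminant (map (algebraMap K L) D) ∧
      X.cubic.Infinite ∧ X.PointsDense

section proofs

open Pool.Agent.Work Datum

variable {K : Type u} [Field K] {X : Datum K}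

theorem isPoint_iff {x : Fin 3 → K} {A : Matrix (Fin 3) (Fin 3) K} :
    X.IsPoint x A ↔ x ≠ 0 ∧ A ≠ 0 ∧ D9.IsPt X.B X.n x A :=
  ⟨fun h => ⟨h.1, h.2.1, h.2.2.1.1, h.2.2.1.2, h.2.2.2⟩,
    fun h => ⟨h.1, h.2.1, ⟨h.2.2.ker, h.2.2.tr⟩, h.2.2.quad⟩⟩

theorem pointsDense_of (h : D9.DensePts K (AlgebraicClosure K) X.B X.n) : X.PointsDense := by
  intro G hG x A hA
  obtain ⟨h1, h2, h3⟩ := isPoint_iff.1 hA
  exact h G (fun x A hx hA0 hA => hG x A (isPoint_iff.2 ⟨hx, hA0, hA⟩)) x A h1 h3

theorem rows_smul {B : Fin 3 → Matrix (Fin 3) (Fin 3) K} (c : K) (l : Fin 3 → K) :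
    D9.rows B (c • l) = c • D9.rows B l := by
  ext i j
  simp only [D9.rows, Matrix.of_apply, Matrix.smul_apply, Pi.smul_apply, smul_eq_mul,
    Finset.mul_sum]
  exact Finset.sum_congr rfl fun r _ => by ring

theorem cubic_infinite_iff : X.cubic.Infinite ↔ D9.InfJ X.B := by
  classical
  constructor
  · intro h
    refine ⟨Projectivization.rep '' X.cubic, h.image ?_, ?_, ?_⟩
    · intro p _ p' _ hpp
      rw [← p.mk_rep, ← p'.mk_rep]
      simp only [hpp]
    · rintro _ ⟨p, -, rfl⟩ _ ⟨p', -, rfl⟩ c hc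
      have h1 : p = p' := by
        rw [← p.mk_rep, ← p'.mk_rep, Projectivization.mk_eq_mk_iff']
        exact ⟨c, hc.symm⟩
      rw [h1]
    · rintro _ ⟨p, hp, rfl⟩
      exact ⟨p.rep_nonzero, hp⟩
  · rintro ⟨S, hS, h1, h2⟩
    have hinj : Set.InjOn
        (fun l : Fin 3 → K => if h : l = 0 then Projectivization.mk K (Pi.single 0 1 : Fin 3 → K)
          (by simp) else Projectivization.mk K l h) S := by
      intro l hl l' hl' hll
      simp only [(h2 l hl).1, (h2 l' hl').1, dite_false] at hll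
      rw [Projectivization.mk_eq_mk_iff'] at hll
      obtain ⟨c, hc⟩ := hll
      exact h1 l hl l' hl' c hc.symm
    refine (hS.image hinj).mono ?_
    rintro _ ⟨l, hl, rfl⟩
    simp only [(h2 l hl).1, dite_false]
    obtain ⟨a, ha⟩ := Projectivization.exists_smul_eq_mk_rep K l (h2 l hl).1
    have h3 : (D9.rows X.B (Projectivization.mk K l (h2 l hl).1).rep).det = 0 := by
      rw [← ha]
      have : (a • l : Fin 3 → K) = (a : K) • l := rfl
      rw [this, rows_smul, Matrix.det_smul, (h2 l hl).2, mul_zero]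
    exact h3

theorem isDiscriminant_of
    (g : D9.Geometry (D9.mB (algebraMap K (AlgebraicClosure K)) X.B)
      (D9.mN (algebraMap K (AlgebraicClosure K)) X.n)) :
    X.IsDiscriminant (D9.DS.disc X.B X.n) := by
  have h0 := D9.DS.map_disc (algebraMap K (AlgebraicClosure K)) X.B X.n
  refine ⟨D9.DS.disc_hom _ _, fun x hx => ⟨?_, ?_⟩⟩
  · obtain ⟨j, hj⟩ := g.curve x hx
    refine ⟨j, ?_⟩
    rw [← h0, pderiv_map, eval_map] at hj
    exact hj
  · have h3 := g.fibre x
    have h4 : (X.extend (AlgebraicClosure K)).SmoothConic x ↔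
        D9.SmoothFibre (D9.mB (algebraMap K (AlgebraicClosure K)) X.B)
          (D9.mN (algebraMap K (AlgebraicClosure K)) X.n) x := by
      constructor
      · intro h
        exact ⟨g.indep x hx, fun A hA1 hA2 hA3 => h A ⟨hA1, hA2⟩ fun A' hA' =>
          hA3 A' hA'.1 hA'.2⟩
      · intro h A hA hA'
        exact h.nondeg A hA.1 hA.2 fun A' h5 h6 => hA' A' ⟨h5, h6⟩
    rw [h4, h3, not_not, ← h0, eval_map]
    rfl

theorem degree_ex (i : Fin 55) : (Nonic.ex Nonic.grid i).degree = 9 := by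
  rw [Finsupp.degree_eq_sum, Fin.sum_univ_three]
  exact Nonic.grid_sum i

/-- The exponents, numbered. -/
noncomputable def expo (i : Fin 55) : {e : Fin 3 →₀ ℕ // e.degree = 9} := ⟨Nonic.ex Nonic.grid i, degree_ex i⟩

theorem expo_injective : Function.Injective expo := by
  intro i j h
  apply Nonic.grid_inj
  funext t
  exact DFunLike.congr_fun (Subtype.ext_iff.1 h) t

end proofs

/-- General conic bundle with discriminant of degree nine, even class, and general plane curve of
degree nine, over any field of characteristic zero. -/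
theorem result :
    ∃ (Φ : MvPolynomial ((Fin 3 × Fin 3 × Fin 3) ⊕ (Fin 3 × (Fin 3 × Fin 3) × Fin 3 × Fin 3)) ℚ)
      (Ψ : MvPolynomial {e : Fin 3 →₀ ℕ // e.degree = 9} ℚ), Φ ≠ 0 ∧ Ψ ≠ 0 ∧
    ∀ (k : Type u) [Field k] [CharZero k],
      (∀ X : Datum k, X.Avoids Φ →
        X.IsConicBundle ∧ (∃ D, X.IsDiscriminant D) ∧ (X.cubic.Infinite → X.PointsDense) ∧
        X.DenseOverExtension) ∧
      ∀ D : MvPolynomial (Fin 3) k, D.IsHomogeneous 9 → FormAvoids Ψ D →
        DiscriminantOverExtension Φ D := by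
  obtain ⟨Φ, Ψ, hΦ, hΨ, H, H'⟩ := Pool.Agent.Work.Nonic.even_nonic.{u, u}
  refine ⟨Φ, rename expo Ψ, hΦ, ?_, fun k _ _ => ⟨fun X hX => ?_, ?_⟩⟩
  · rw [Ne, map_eq_zero_iff _ (rename_injective _ expo_injective)]
    exact hΨ
  · obtain ⟨g, h1, h2⟩ := H k (AlgebraicClosure k) X.B X.n hX
    have := charZero_of_injective_algebraMap (algebraMap k (AlgebraicClosure k)).injective
    refine ⟨⟨?_, ?_, fun x hx => ⟨g.indep x hx, ?_⟩⟩, ?_, ?_, ?_⟩
    · intro G₁ G₂ hG
      rcases Pool.Agent.Work.D9.IN.irred_ne g G₁ G₂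
        (fun x A hx hA0 hA => hG x A (isPoint_iff.2 ⟨hx, hA0, hA⟩)) with h3 | h3
      · exact Or.inl fun x A hA => h3 x A hA.1 (isPoint_iff.1 hA).2.2
      · exact Or.inr fun x A hA => h3 x A hA.1 (isPoint_iff.1 hA).2.2
    · intro x A hA y z c
      obtain ⟨h3, h4, h5⟩ := isPoint_iff.1 hA
      exact g.smooth x A h3 h4 h5 y z c
    · obtain ⟨A, hA1, hA2, hA3⟩ := g.conic x hx
      exact ⟨A, ⟨hA1, hA2⟩, hA3⟩
    · exact ⟨_, isDiscriminant_of g⟩
    · intro hJ
      exact pointsDense_of (h1 (cubic_infinite_iff.1 hJ))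
    · obtain ⟨L, hfd, hJ, -⟩ := h2 inferInstance
      exact ⟨L, hfd, cubic_infinite_iff.2 hJ, pointsDense_of ((H L (AlgebraicClosure L) _ _
        (Pool.Agent.Work.Nonic.aeval_par_ne (algebraMap k L) hX)).2.1 hJ)⟩
  · intro D hD hDΨ
    rw [FormAvoids, aeval_rename] at hDΨ
    obtain ⟨L, hfd, B, n, h1, h2, h3, -⟩ := H' k (AlgebraicClosure k)
      (fun i => coeff (Pool.Agent.Work.Nonic.ex Pool.Agent.Work.Nonic.grid i) D) hDΨ
    obtain ⟨g, h4, -⟩ := H L (AlgebraicClosure L) B n h1
    refine ⟨L, hfd, ⟨B, n⟩, h1, ?_, cubic_infinite_iff.2 h3, pointsDense_of (h4 h3)⟩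
    have h5 := isDiscriminant_of (X := ⟨B, n⟩) g
    have h6 : Pool.Agent.Work.D9.DS.disc B n = map (algebraMap k L) D := by
      rw [h2, ← Pool.Agent.Work.Nonic.map_nonic, Pool.Agent.Work.Nonic.nonic_coeff D hD]
    rw [← h6]
    exact h5

end Pool.Agent.Results.MP_b62148_ag.NonicEven
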