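import Mathlib
import Pool.Agent.Work.MP_b62148_ag.Pencil.Six2

/-!
Families of quadric surfaces over the plane, of low degree in one of the two coordinates: density
of the points over which the quadric surface contains a line, and potential density of all conic
bundles cut out on such a family by a family of planes, `X = {(y, A) : M(x)(A) = 0, l(y) . A = 0}`,
where `y = (x, b)` has any number of additional parameters `b`, and `l` has any degree.
-/

namespace Pool.Agent.Results.MP_b62148_ag.PencilSections

open MvPolynomial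

universe u v w

/-- A symmetric `4 x 4` matrix of polynomials in `r = X 0` and `t = X 1`. -/
structure Family (k : Type u) [Field k] where
  /-- the matrix -/
  M : Matrix (Fin 4) (Fin 4) (MvPolynomial (Fin 2) k)
  symm : M.IsSymm

namespace Family

variable {k : Type u} [Field k] (Q : Family k)

/-- There are integers `e i`, all of the same parity and with sum at most four, such that the
degree in `r` of the entry `M i j` is at most `(e i + e j) / 2`. -/
def Weighted : Prop :=
  ∃ e : Fin 4 → ℤ, (∀ i j, Even (e i + e j)) ∧ ∑ i, e i ≤ 4 ∧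
    ∀ i j, ∀ d ∈ (Q.M i j).support, 2 * (d 0 : ℤ) ≤ e i + e j

/-- `G` is the determinant, up to the square of a polynomial over `E`. -/
def DetUpToSquare (E : Type v) [Field E] [Algebra k E] (G : MvPolynomial (Fin 2) E) : Prop :=
  ∃ p : MvPolynomial (Fin 2) E, map (algebraMap k E) Q.M.det = G * p ^ 2

/-- The bilinear form `M(x)(A, A')` at the point `x = (r, t)`. -/
noncomputable def pairing {E : Type v} [Field E] [Algebra k E] (x : Fin 2 → E)
    (A A' : Fin 4 → E) : E :=
  ∑ i, ∑ j, aeval x (Q.M i j) * A i * A' j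

/-- The determinant along the curve `r = c(t)`. -/
noncomputable def detOn {E : Type v} [Field E] [Algebra k E] (c : Polynomial E) (t : E) : E :=
  aeval ![c.eval t, t] Q.M.det

/-- The determinant is not zero on the curve `r = c(t)`, and `G` vanishes at a point `(c(t), t)` of
the curve over `E`, where its derivative in `r` does not vanish. -/
def Crosses {L : Type v} [Field L] [Algebra k L] (E : Type w) [Field E] [Algebra L E]
    (G : MvPolynomial (Fin 2) L) (c : Polynomial L) : Prop :=
  (∃ s, Q.detOn c s ≠ 0) ∧ ∃ t : E, aeval ![Polynomial.aeval t c, t] G = 0 ∧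
    aeval ![Polynomial.aeval t c, t] (pderiv 0 G) ≠ 0

/-- `det(c(t), t) = g(t) ^ 2 B(t)` with `B` of degree at most four. -/
def FewOddZeros {E : Type v} [Field E] [Algebra k E] (c : Polynomial E) : Prop :=
  ∃ g B : Polynomial E, B.natDegree ≤ 4 ∧ ∀ t : E, Q.detOn c t = g.eval t ^ 2 * B.eval t

/-- The quadratic form `M(c(t), t)` has a nonzero zero over `L(t)`. -/
def HasZero {L : Type v} [Field L] [Algebra k L] (c : Polynomial L) : Prop :=
  ∃ a : Fin 4 → Polynomial L, a ≠ 0 ∧
    ∀ t : L, Q.pairing ![c.eval t, t] (fun i => (a i).eval t) (fun i => (a i).eval t) = 0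

/-- The double cover `z ^ 2 = det(c(t), t)` of the curve has infinitely many points over `L`. -/
def InfinitelyManySquares {L : Type v} [Field L] [Algebra k L] (c : Polynomial L) : Prop :=
  {t : L | IsSquare (Q.detOn c t)}.Infinite

/-- The quadric surface over `x` is smooth and contains a line defined over `L`. -/
def ContainsLine {L : Type v} [Field L] [Algebra k L] (x : Fin 2 → L) : Prop :=
  aeval x Q.M.det ≠ 0 ∧ ∃ A B : Fin 4 → L, LinearIndependent L ![A, B] ∧
    Q.pairing x A A = 0 ∧ Q.pairing x A B = 0 ∧ Q.pairing x B B = 0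

/-- The points of the plane over `L`, over which the quadric surface is smooth and contains a line
defined over `L`, are Zariski dense. -/
def LinesDense (L : Type v) [Field L] [Algebra k L] : Prop :=
  ∀ g : MvPolynomial (Fin 2) L, (∀ x : Fin 2 → L, Q.ContainsLine x → eval x g = 0) → g = 0

section

variable {L : Type v} [Field L] {m : ℕ} (l : Fin 4 → MvPolynomial (Fin 2 ⊕ Fin m) L)
  {E : Type w} [Field E] [Algebra k E] [Algebra L E]

/-- `A` is on the plane of the family `l` over the point `y = (r, t, b_1, .., b_m)`. -/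
def OnPlane (y : Fin 2 ⊕ Fin m → E) (A : Fin 4 → E) : Prop := ∑ i, aeval y (l i) * A i = 0

/-- `(y, A)` is a point of `X`. -/
def IsPoint (y : Fin 2 ⊕ Fin m → E) (A : Fin 4 → E) : Prop :=
  A ≠ 0 ∧ OnPlane l y A ∧ Q.pairing (fun i => y (Sum.inl i)) A A = 0

/-- The fibre of `X` over `y` is a conic: `l` is not zero at `y`, and the quadratic form is not
zero on the plane. -/
def IsConic (y : Fin 2 ⊕ Fin m → E) : Prop :=
  (∃ i, aeval y (l i) ≠ 0) ∧
    ∃ A : Fin 4 → E, OnPlane l y A ∧ Q.pairing (fun i => y (Sum.inl i)) A A ≠ 0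

/-- The fibre of `X` over `y` is a smooth conic: `l` is not zero at `y`, and the quadratic form is
nondegenerate on the plane. -/
def IsSmoothConic (y : Fin 2 ⊕ Fin m → E) : Prop :=
  (∃ i, aeval y (l i) ≠ 0) ∧ ∀ A : Fin 4 → E, OnPlane l y A →
    (∀ A' : Fin 4 → E, OnPlane l y A' → Q.pairing (fun i => y (Sum.inl i)) A A' = 0) → A = 0

/-- The points of `X` with coordinates in `L` are Zariski dense in `X`: every polynomial over `L`
that vanishes at all of them vanishes at all points with coordinates in `E` whose fibre is a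
conic. -/
def PointsDense [Algebra k L] (E : Type w) [Field E] [Algebra k E] [Algebra L E] : Prop :=
  ∀ G : MvPolynomial ((Fin 2 ⊕ Fin m) ⊕ Fin 4) L,
    (∀ (y : Fin 2 ⊕ Fin m → L) (A : Fin 4 → L), Q.IsPoint l y A → eval (Sum.elim y A) G = 0) →
    ∀ (y : Fin 2 ⊕ Fin m → E) (A : Fin 4 → E), Q.IsPoint l y A → Q.IsConic l y →
      aeval (Sum.elim y A) G = 0

end

/-- Both are dense: the points over which there is a line, and the points of all `X` for which
some fibre is a smooth conic. -/
def AllDense (L : Type v) [Field L] [Algebra k L] (E : Type w) [Field E] [Algebra k E]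
    [Algebra L E] : Prop :=
  Q.LinesDense L ∧ ∀ (m : ℕ) (l : Fin 4 → MvPolynomial (Fin 2 ⊕ Fin m) L),
    (∃ y : Fin 2 ⊕ Fin m → E, Q.IsSmoothConic l y) → Q.PointsDense l E

end Family

/-- `G` has degree at most four in `t`, or it has total degree at most six and is not a polynomial
in `t` alone. -/
def SmallDegree {E : Type v} [Field E] (G : MvPolynomial (Fin 2) E) : Prop :=
  degreeOf 1 G ≤ 4 ∨ G.totalDegree ≤ 6 ∧ degreeOf 0 G ≠ 0

section proofs

open Pool.Agent.Work Matrix Pencil D9odd

variable {k : Type u} [Field k] (Q : Family k)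

theorem pairing_bf {E : Type v} [Field E] [Algebra k E] (x : Fin 2 → E) (A A' : Fin 4 → E) :
    Q.pairing x A A' = bf (Q.M.map (aeval x)) A A' := by
  simp only [Family.pairing, bf, dotProduct, Matrix.mulVec, Matrix.map_apply, Finset.mul_sum]
  refine Finset.sum_congr rfl fun i _ => Finset.sum_congr rfl fun j _ => ?_
  ring

theorem map_aeval {L : Type v} [Field L] [Algebra k L] {E : Type w} [Field E] [Algebra k E]
    [Algebra L E] [IsScalarTower k L E] (x : Fin 2 → E) :
    (bM L Q.M).map (aeval x) = Q.M.map (aeval x) := by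
  refine Matrix.ext fun i j => ?_
  show aeval x (MvPolynomial.map (algebraMap k L) (Q.M i j)) = aeval x (Q.M i j)
  rw [aeval_map_algebraMap]

theorem map_eval {L : Type v} [Field L] [Algebra k L] (x : Fin 2 → L) :
    (bM L Q.M).map (eval x) = Q.M.map (aeval x) := by
  refine Matrix.ext fun i j => ?_
  show eval x (MvPolynomial.map (algebraMap k L) (Q.M i j)) = aeval x (Q.M i j)
  rw [MvPolynomial.eval_map]
  rfl

theorem linesDense_of {L : Type v} [Field L] [Algebra k L] (hD : Q.M.det ≠ 0)
    (h : PlaneDense (bM L Q.M)) : Q.LinesDense L := by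
  intro g hg
  have hD' : MvPolynomial.map (algebraMap k L) Q.M.det ≠ 0 := by
    intro h0
    apply hD
    apply MvPolynomial.map_injective (algebraMap k L) (algebraMap k L).injective
    rw [map_zero]
    exact h0
  have h1 : g * MvPolynomial.map (algebraMap k L) Q.M.det = 0 := by
    apply h
    intro x hx
    rw [map_mul]
    by_cases h0 : eval x (MvPolynomial.map (algebraMap k L) Q.M.det) = 0
    · rw [h0, mul_zero]
    · rw [hg x ⟨?_, ?_⟩, zero_mul]
      · intro h2
        apply h0
        rw [MvPolynomial.eval_map]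
        exact h2
      · rw [map_eval] at hx
        obtain ⟨A, B, h3, h4, h5, h6⟩ := hx
        exact ⟨A, B, h3, by rw [pairing_bf]; exact h4, by rw [pairing_bf]; exact h5,
          by rw [pairing_bf]; exact h6⟩
  exact (mul_eq_zero.mp h1).resolve_right hD'

theorem dense_of_secDense {L : Type v} [Field L] [Algebra k L] {E : Type w} [Field E]
    [Algebra k E] [Algebra L E] [IsScalarTower k L E] {m : ℕ}
    (l : Fin 4 → MvPolynomial (Fin 2 ⊕ Fin m) L)
    (h : SecDense L E (exM (Fin m) (bM L Q.M)) l) : Q.PointsDense l E := by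
  intro G hG y A hA hy
  have e : (exM (Fin m) (bM L Q.M)).map (aeval y) =
      Q.M.map (aeval fun i => y (Sum.inl i)) := by
    rw [exM_map, map_aeval]
  refine h G ?_ y A ?_ hA.2.1 hy.1 ?_
  · intro z B hB hB2 hB3
    apply hG z B
    refine ⟨hB, ?_, ?_⟩
    · show ∑ i, aeval z (l i) * B i = 0
      simp only [MvPolynomial.aeval_eq_eval]
      exact hB3
    · rw [exM_eval, map_eval] at hB2
      rw [pairing_bf]
      exact hB2
  · rw [e, ← pairing_bf]
    exact hA.2.2
  · obtain ⟨A', h1, h2⟩ := hy.2
    exact ⟨A', h1, by rw [e, ← pairing_bf]; exact h2⟩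

theorem bord_ne_zero {L : Type v} [Field L] [Algebra k L] {E : Type w} [Field E] [Algebra k E]
    [Algebra L E] [IsScalarTower k L E] {m : ℕ} (l : Fin 4 → MvPolynomial (Fin 2 ⊕ Fin m) L)
    (y : Fin 2 ⊕ Fin m → E)
    (hy : Q.IsSmoothConic l y) : (bord (exM (Fin m) (bM L Q.M)) l).det ≠ 0 := by
  obtain ⟨⟨i, hi⟩, hnd⟩ := hy
  intro h
  have e : (exM (Fin m) (bM L Q.M)).map (aeval y) =
      Q.M.map (aeval fun i => y (Sum.inl i)) := by
    rw [exM_map, map_aeval]
  have h2 : (bord (Q.M.map (aeval fun i => y (Sum.inl i))) (fun j => aeval y (l j))).det = 0 := by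
    have h3 := bord_map (aeval y : MvPolynomial (Fin 2 ⊕ Fin m) L →ₐ[L] E).toRingHom
      (exM (Fin m) (bM L Q.M)) l
    have h4 := congrArg (aeval y : MvPolynomial (Fin 2 ⊕ Fin m) L →ₐ[L] E) h
    rw [map_zero] at h4
    have h5 := h3.trans h4
    have h6 : (exM (Fin m) (bM L Q.M)).map
        (aeval y : MvPolynomial (Fin 2 ⊕ Fin m) L →ₐ[L] E).toRingHom =
        Q.M.map (aeval fun i => y (Sum.inl i)) := e
    rw [h6] at h5
    exact h5
  obtain ⟨v, hv, hv2⟩ := Matrix.exists_mulVec_eq_zero_iff.mpr h2
  have hrow : ∀ j : Fin 4, ((Q.M.map (aeval fun i => y (Sum.inl i))) *ᵥ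
      (fun j => v (Sum.inl j))) j + aeval y (l j) * v (Sum.inr ()) = 0 := by
    intro j
    have := congrFun hv2 (Sum.inl j)
    simpa [Matrix.mulVec, dotProduct, bord, Fintype.sum_sum_type] using this
  have hcol : ∑ j, aeval y (l j) * v (Sum.inl j) = 0 := by
    have := congrFun hv2 (Sum.inr ())
    simpa [Matrix.mulVec, dotProduct, bord, Fintype.sum_sum_type] using this
  have hsymm : (Q.M.map (aeval fun i => y (Sum.inl i) : MvPolynomial (Fin 2) k →ₐ[k] E))ᵀ =
      Q.M.map (aeval fun i => y (Sum.inl i)) := by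
    rw [← Matrix.transpose_map, Q.symm]
  have hA : (fun j => v (Sum.inl j)) = 0 := by
    apply hnd _ hcol
    intro A' hA'
    rw [pairing_bf, bf_comm hsymm]
    unfold bf
    have h5 : ((Q.M.map (aeval fun i => y (Sum.inl i))) *ᵥ (fun j => v (Sum.inl j))) =
        fun j => - (aeval y (l j) * v (Sum.inr ())) := by
      funext j
      exact eq_neg_of_add_eq_zero_left (hrow j)
    rw [h5]
    have h6 : ∑ j, aeval y (l j) * A' j = 0 := hA'
    simp only [dotProduct]
    have h7 : ∑ j, A' j * -(aeval y (l j) * v (Sum.inr ())) =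
        - v (Sum.inr ()) * ∑ j, aeval y (l j) * A' j := by
      rw [Finset.mul_sum]
      exact Finset.sum_congr rfl fun j _ => by ring
    rw [h7, h6, mul_zero]
  apply hv
  funext j
  rcases j with j | j
  · exact congrFun hA j
  · have h8 := hrow i
    have h9 : (Q.M.map (aeval fun i => y (Sum.inl i))) *ᵥ (fun j => v (Sum.inl j)) = 0 := by
      rw [hA, Matrix.mulVec_zero]
    rw [h9] at h8
    simp only [Pi.zero_apply, zero_add] at h8
    exact (mul_eq_zero.mp h8).resolve_left hi

theorem vl_det {E : Type v} [Field E] [Algebra k E] (c : Polynomial E) (t : E) :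
    (vl c (bM E Q.M).det).eval t = Q.detOn c t := by
  rw [vl_eval, bM_det, MvPolynomial.eval_map]
  rfl

theorem good_of {L : Type v} [Field L] [CharZero L] [Algebra k L] (c : Polynomial L)
    (h1 : Q.HasZero c) (h2 : Q.InfinitelyManySquares c) : GoodR (bM L Q.M) c := by
  obtain ⟨a, ha, haa⟩ := h1
  refine ⟨⟨a, ha, ?_⟩, ?_⟩
  · apply Polynomial.funext
    intro t
    rw [Polynomial.eval_zero, ← haa t, pairing_bf]
    have h3 := map_bf (Polynomial.evalRingHom t) ((bM L Q.M).map (vl c)) a a
    refine h3.trans ?_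
    congr 1
    refine Matrix.ext fun i j => ?_
    show (vl c (MvPolynomial.map (algebraMap k L) (Q.M i j))).eval t = aeval _ (Q.M i j)
    rw [vl_eval, MvPolynomial.eval_map]
    rfl
  · refine h2.mono fun t ht => ?_
    show IsSquare ((vl c (bM L Q.M).det).eval t)
    rw [vl_det]
    exact ht

end proofs

open Pool.Agent.Work.Pencil in
/-- Potential density of the conic bundles cut out on a family of quadric surfaces. -/
theorem result {k : Type u} [Field k] [CharZero k] (Q : Family k) (hw : Q.Weighted) :
    (∀ G : MvPolynomial (Fin 2) (AlgebraicClosure k), Q.M.det ≠ 0 →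
      Q.DetUpToSquare (AlgebraicClosure k) G →
      (SmallDegree G ∨ ∃ c : Polynomial (AlgebraicClosure k),
        Q.Crosses (AlgebraicClosure k) G c ∧ Q.FewOddZeros c) →
      ∃ L : IntermediateField k (AlgebraicClosure k), FiniteDimensional k L ∧
        ∀ L' : IntermediateField k (AlgebraicClosure k), L ≤ L' →
          Q.AllDense L' (AlgebraicClosure k)) ∧
    (∀ (L : IntermediateField k (AlgebraicClosure k)) (G : MvPolynomial (Fin 2) L)
      (c : Polynomial L), Q.DetUpToSquare L G → Q.Crosses (AlgebraicClosure k) G c →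
      Q.HasZero c → Q.InfinitelyManySquares c → Q.AllDense L (AlgebraicClosure k)) := by
  have hM : Q.M.transpose = Q.M := Q.symm
  have hw' : WtR Q.M := hw
  have hne : ∀ c : Polynomial (AlgebraicClosure k), (∃ s, Q.detOn c s ≠ 0) →
      vl c (bM (AlgebraicClosure k) Q.M).det ≠ 0 := by
    rintro c ⟨s, hs⟩ h
    apply hs
    rw [← vl_det, h, Polynomial.eval_zero]
  have fin : ∀ L : IntermediateField k (AlgebraicClosure k), Q.M.det ≠ 0 →
      PlaneDense (bM L Q.M) → Q.AllDense L (AlgebraicClosure k) := by
    intro L hD hP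
    refine ⟨linesDense_of Q hD hP, fun m l hl => ?_⟩
    obtain ⟨y, hy⟩ := hl
    exact dense_of_secDense Q l (sec_of_planes (bM L Q.M) (bM_symm L hM) hP l
      (bord_ne_zero Q l y hy))
  constructor
  · rintro G hD ⟨p, hGp⟩ hG
    have key : PotDenseR (AlgebraicClosure k) Q.M := by
      rcases hG with hG | ⟨c, ⟨h1, t, h2, h3⟩, g, B, hB, hgB⟩
      · exact pot_six Q.M hM hw' hD G p (by rw [bM_det]; exact hGp) hG
      · refine pot_point' Q.M hM hw' G p (by rw [bM_det]; exact hGp) c t (hne c h1) ?_ ?_ g B ?_ hB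
        · rw [MvPolynomial.aeval_eq_eval] at h2; exact h2
        · rw [MvPolynomial.aeval_eq_eval] at h3; exact h3
        · apply Polynomial.funext
          intro s
          rw [vl_det, hgB, Polynomial.eval_mul, Polynomial.eval_pow]
    obtain ⟨L, hL, h⟩ := key
    exact ⟨L, hL, fun L' hLL' => fin L' hD (h L' hLL')⟩
  · rintro L G c ⟨p, hGp⟩ ⟨⟨s, hs⟩, t, h2, h3⟩ h4 h5
    have hB : vl c (bM L Q.M).det ≠ 0 := by
      intro h
      apply hs
      rw [← vl_det, h, Polynomial.eval_zero]
    have hD : Q.M.det ≠ 0 := by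
      intro h
      apply hB
      rw [bM_det, h, map_zero, map_zero]
    exact fin L hD (planes_core (bM L Q.M) (bM_symm L hM) (hw'.map _) c hB
      (covCond_point' (Ω := AlgebraicClosure k) (bM L Q.M) (hw'.map _) G p
        (by rw [bM_det]; exact hGp) c t hB h2 h3) (good_of Q c h4 h5))

end Pool.Agent.Results.MP_b62148_ag.PencilSections
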