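import Mathlib
import Pool.Agent.Work.MP_b62148_ag.QR.ResR

/-!
Complete intersections of `a` quadrics with one rational point over a field of characteristic zero:
unirationality and density of the rational points over the same field, for smooth complete
intersections in `P ^ n` with `n ≥ a ^ 2 - a + 3` and for systems of forms of large rank.
-/

namespace Pool.Agent.Results.MP_b62148_ag.QuadricsWithPoint

open MvPolynomial

/-- The vector `x`, with coordinates in an extension field `F` of `K`, is a smooth point of (the
cone over) the common zero locus of the `G_i`: all the `G_i` vanish at `x` and their gradients at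
`x` are linearly independent. For quadratic forms, at least one in number, such a vector is not
zero. -/
def IsSmoothPoint {K : Type*} [Field K] {σ : Type*} {a : ℕ} (G : Fin a → MvPolynomial σ K)
    {F : Type*} [Field F] [Algebra K F] (x : σ → F) : Prop :=
  (∀ i, aeval x (G i) = 0) ∧
    LinearIndependent F (fun (i : Fin a) (l : σ) => aeval x (pderiv l (G i)))

/-- The forms `G_1, ..., G_a` define a smooth complete intersection: every common zero other than
the origin, over the algebraic closure, is a smooth point. -/
def IsSmoothCI {K : Type*} [Field K] {σ : Type*} {a : ℕ} (G : Fin a → MvPolynomial σ K) : Prop :=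
  ∀ x : σ → AlgebraicClosure K, x ≠ 0 → (∀ i, aeval x (G i) = 0) → IsSmoothPoint G x

/-- Every nonzero linear combination of the quadratic forms `G_1, ..., G_a` with coefficients in
the algebraic closure has rank at least `r`; the rank of a quadratic form is the rank of the matrix
of its second partial derivatives (which are constants, here evaluated at the origin). -/
def RanksAtLeast {K : Type*} [Field K] {σ : Type*} [Fintype σ] {a : ℕ}
    (G : Fin a → MvPolynomial σ K) (r : ℕ) : Prop :=
  ∀ w : Fin a → AlgebraicClosure K, w ≠ 0 →
    r ≤ (Matrix.of fun l l' : σ =>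
      ∑ i, w i * aeval (0 : σ → AlgebraicClosure K) (pderiv l (pderiv l' (G i)))).rank

/-- The common zero locus of the `G_i` is unirational over `K`: there are polynomials `P_l` in `m`
variables over `K`, for some `m`, at which all the `G_i` vanish identically, and such that every
polynomial over `K` vanishing identically at `P` vanishes at all smooth points over the algebraic
closure (the map given by `P` from affine space to the common zero locus is defined over `K` and
dominates the smooth locus). -/
def Unirational {K : Type*} [Field K] {σ : Type*} {a : ℕ} (G : Fin a → MvPolynomial σ K) : Prop :=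
  ∃ (m : ℕ) (P : σ → MvPolynomial (Fin m) K), (∀ i, aeval P (G i) = 0) ∧
    ∀ H : MvPolynomial σ K, aeval P H = 0 →
      ∀ x : σ → AlgebraicClosure K, IsSmoothPoint G x → aeval x H = 0

/-- The smooth points with coordinates in `K` are Zariski dense in the smooth locus: every
polynomial over `K` vanishing at all smooth points with coordinates in `K` vanishes at all smooth
points over the algebraic closure. -/
def DensePoints {K : Type*} [Field K] {σ : Type*} {a : ℕ} (G : Fin a → MvPolynomial σ K) : Prop :=
  ∀ H : MvPolynomial σ K, (∀ x : σ → K, IsSmoothPoint G x → aeval x H = 0) →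
    ∀ x : σ → AlgebraicClosure K, IsSmoothPoint G x → aeval x H = 0

section Aux

variable {K : Type*} [Field K] {σ : Type*} {a : ℕ} {G : Fin a → MvPolynomial σ K} {F : Type*}
  [Field F] [Algebra K F] {x : σ → F}

theorem grad_of_smooth (h : IsSmoothPoint G x) : Pool.Agent.Work.PQRes.Grad G x := by
  intro c hc
  have h1 := Fintype.linearIndependent_iff.mp h.2 c (by
    funext l
    simpa [Finset.sum_apply] using hc l)
  funext i
  exact h1 i

theorem smooth_of_grad (h0 : ∀ i, aeval x (G i) = 0) (h : Pool.Agent.Work.PQRes.Grad G x) :
    IsSmoothPoint G x := by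
  refine ⟨h0, ?_⟩
  rw [Fintype.linearIndependent_iff]
  intro c hc i
  refine congrFun (h c fun l => ?_) i
  have h1 := congrFun hc l
  simpa [Finset.sum_apply] using h1

end Aux

/-- Let `K` be a field of characteristic zero and `X` in `P ^ n` the common zero locus of `a ≥ 1`
quadratic forms over `K`, with a point `p` over `K`. Suppose that `X` is a smooth complete
intersection and `n ≥ a ^ 2 - a + 3`, or that `p` is a smooth point and every nonzero combination of
the forms over the algebraic closure has rank at least `a ^ 2 - a + 4`. Then `X` is unirational over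
`K`, and its smooth points over `K` are Zariski dense. -/
theorem result {K : Type*} [Field K] [CharZero K] (n a : ℕ) (ha : 1 ≤ a)
    (G : Fin a → MvPolynomial (Fin (n + 1)) K) (hG : ∀ i, (G i).IsHomogeneous 2)
    (p : Fin (n + 1) → K) (hp0 : p ≠ 0) (hp : ∀ i, eval p (G i) = 0)
    (hX : (IsSmoothCI G ∧ a ^ 2 - a + 3 ≤ n) ∨
      (IsSmoothPoint G p ∧ RanksAtLeast G (a ^ 2 - a + 4))) :
    Unirational G ∧ DensePoints G := by
  classical
  have haa : a ≤ a ^ 2 := by
    rw [pow_two]
    exact Nat.le_mul_of_pos_left a ha
  have hp' : ∀ i, aeval p (G i) = 0 := by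
    intro i
    rw [MvPolynomial.aeval_eq_eval]
    exact hp i
  have hpg : Pool.Agent.Work.PQRes.Grad G p := by
    rcases hX with ⟨hs, _⟩ | ⟨hs, _⟩
    · have hs' : Pool.Agent.Work.PDC.SmoothCI G := fun x hx0 hx =>
        grad_of_smooth (hs x hx0 hx)
      exact fun c hc => Pool.Agent.Work.PDC.smooth_ext G hs' p hp0 hp' c
        (Pool.Agent.Work.PDC.dd_of_grad G p c hc)
    · exact grad_of_smooth hs
  obtain ⟨m, P, hP, hdom⟩ := Pool.Agent.Work.PQRes.final_dom G hG ha p hp0 hp' (by
    rcases hX with ⟨hs, hn⟩ | ⟨hs, hr⟩
    · refine Or.inl ⟨fun x hx0 hx => grad_of_smooth (hs x hx0 hx), ?_⟩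
      rw [Fintype.card_fin]
      omega
    · refine Or.inr ⟨hpg, fun w hw => ?_⟩
      have h1 := hr w hw
      omega)
  refine ⟨⟨m, P, hP, fun H hH x hx => hdom H hH x hx.1 (grad_of_smooth hx)⟩, ?_⟩
  intro H hH x hx
  exact Pool.Agent.Work.PQRes.dense_of_dom G p hp' hpg P hP hdom H
    (fun z hz hzg => hH z (smooth_of_grad hz hzg)) x hx.1 (grad_of_smooth hx)

end Pool.Agent.Results.MP_b62148_ag.QuadricsWithPoint
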