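import Mathlib
import Pool.Agent.Work.MP_b62148_ag.CI.Quin
import Pool.Agent.Work.MP_b62148_ag.Quintic.AlongQ
import Pool.Agent.Work.MP_b62148_ag.DM.Final

/-!
Fano complete intersections of multidegree `(d_1, ..., d_c)`, where the sum of the `d_i - 2` is at
most two or the sum of the `d_i - 1` is at most four, smooth or quintic hypersurfaces:
unirationality over every field of definition of a linear space of the expected dimension in the
smooth locus, and potential unirationality and potential density of rational points.
-/

namespace Pool.Agent.Results.MP_b62148_ag.SmallDegrees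

open MvPolynomial

/-- The forms `G_1, ..., G_c` define a smooth complete intersection: at every common zero other than
the origin, over the algebraic closure, the gradients of the `G_i` are linearly independent. -/
def IsSmoothCI {K : Type*} [Field K] {σ : Type*} {c : ℕ} (G : Fin c → MvPolynomial σ K) : Prop :=
  ∀ x : σ → AlgebraicClosure K, x ≠ 0 → (∀ i, aeval x (G i) = 0) →
    LinearIndependent (AlgebraicClosure K) (fun (i : Fin c) (l : σ) => aeval x (pderiv l (G i)))

/-- The common zero locus of the `G_i` contains a linear space of projective dimension `r - 1`,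
the span of `r` independent vectors with coordinates in the intermediate field `E`, and is smooth
along it: the gradients of the `G_i` are linearly independent at each nonzero vector of the span
over the algebraic closure. -/
def ContainsSpace {k : Type*} [Field k] {σ : Type*} {c : ℕ} (G : Fin c → MvPolynomial σ k)
    (E : IntermediateField k (AlgebraicClosure k)) (r : ℕ) : Prop :=
  ∃ v : Fin r → σ → AlgebraicClosure k, (∀ j l, v j l ∈ E) ∧
    LinearIndependent (AlgebraicClosure k) v ∧
    ∀ s : Fin r → AlgebraicClosure k, (∀ i, aeval (fun l => ∑ j, s j * v j l) (G i) = 0) ∧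
      (s ≠ 0 → LinearIndependent (AlgebraicClosure k)
        (fun (i : Fin c) (l : σ) => aeval (fun m => ∑ j, s j * v j m) (pderiv l (G i))))

/-- The common zero locus of the `G_i` is unirational over `K`: there are polynomials `P_l` in `m`
variables over `K`, for some `m`, at which all the `G_i` vanish identically, and such that every
polynomial over `K` vanishing identically at `P` vanishes at all common zeros of the `G_i` over the
algebraic closure (the map given by `P` from affine space to the common zero locus is dominant). -/
def Unirational {K : Type*} [Field K] {σ : Type*} {c : ℕ} (G : Fin c → MvPolynomial σ K) : Prop :=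
  ∃ (m : ℕ) (P : σ → MvPolynomial (Fin m) K), (∀ i, aeval P (G i) = 0) ∧
    ∀ H : MvPolynomial σ K, aeval P H = 0 →
      ∀ x : σ → AlgebraicClosure K, (∀ i, aeval x (G i) = 0) → aeval x H = 0

/-- The `K`-points of the common zero locus of the `G_i` are Zariski dense: every polynomial over
`K` vanishing at all common zeros of the `G_i` with coordinates in `K` vanishes at all their common
zeros over the algebraic closure. -/
def DensePoints {K : Type*} [Field K] {σ : Type*} {c : ℕ} (G : Fin c → MvPolynomial σ K) : Prop :=
  ∀ H : MvPolynomial σ K, (∀ x : σ → K, (∀ i, eval x (G i) = 0) → eval x H = 0) →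
    ∀ x : σ → AlgebraicClosure K, (∀ i, aeval x (G i) = 0) → aeval x H = 0

/-- Some `18` linearly independent vectors over the algebraic closure have no nonzero linear
combination at which all partial derivatives of the `G_i` vanish (for a hypersurface: some linear
subspace of projective dimension `17` contains no singular point, that is, the singular locus has
dimension at most `n - 18`). -/
def FewSingular {k : Type*} [Field k] {σ : Type*} {c : ℕ} (G : Fin c → MvPolynomial σ k) : Prop :=
  ∃ v : Fin 18 → σ → AlgebraicClosure k, LinearIndependent (AlgebraicClosure k) v ∧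
    ∀ s : Fin 18 → AlgebraicClosure k, s ≠ 0 →
      ∃ i l, aeval (fun m => ∑ j, s j * v j m) (pderiv l (G i)) ≠ 0

section Aux

variable {k : Type*} [Field k] {σ : Type*}

/-- the change of the algebraic closure -/
theorem along_change {r : ℕ} (L : IntermediateField k (AlgebraicClosure k))
    (F : MvPolynomial σ k) (v : Fin r → σ → AlgebraicClosure k) (e : Fin r → σ → L)
    (hv : ∀ j l, algebraMap L (AlgebraicClosure k) (e j l) = v j l)
    (h : ∀ s : Fin r → AlgebraicClosure k, s ≠ 0 →
      ∃ l, aeval (fun i => ∑ j, s j * v j i) (pderiv l F) ≠ 0)
    (s : Fin r → AlgebraicClosure L) (hs : s ≠ 0) :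
    ∃ l, aeval (fun i => ∑ j, s j * algebraMap L (AlgebraicClosure L) (e j i))
      (pderiv l (map (algebraMap k L) F)) ≠ 0 := by
  let φ : AlgebraicClosure L →ₐ[L] AlgebraicClosure k := IsAlgClosed.lift
  have hφ : (fun j => φ (s j)) ≠ 0 := by
    intro h0
    apply hs
    funext j
    have h1 := congrFun h0 j
    simpa using h1
  obtain ⟨l, hl⟩ := h _ hφ
  refine ⟨l, fun h0 => hl ?_⟩
  have h1 := congrArg φ h0
  rw [map_zero, pderiv_map] at h1
  have h2 : ∀ (x : σ → AlgebraicClosure L) (p : MvPolynomial σ L),
      φ (aeval x p) = aeval (fun i => φ (x i)) p := by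
    intro x p
    have : (φ : AlgebraicClosure L →ₐ[L] AlgebraicClosure k).comp (aeval x) =
        aeval (fun i => φ (x i)) := by
      apply MvPolynomial.algHom_ext
      intro i; simp
    exact congrArg (fun f => f p) this
  rw [h2, aeval_map_algebraMap] at h1
  rw [← h1]
  congr 2
  funext i
  rw [map_sum]
  refine Finset.sum_congr rfl fun j _ => ?_
  rw [map_mul, AlgHom.commutes, hv]

end Aux

/-- the theorem for a linear space with coordinates in `L` -/
theorem main_aux {k : Type*} [Field k] [CharZero k] (n c : ℕ) (d : Fin c → ℕ) (hd : ∀ i, 2 ≤ d i)
    (hdeg : ∑ i, (d i - 2) ≤ 2 ∨ ∑ i, (d i - 1) ≤ 4) (hn : ∑ i, d i ≤ n)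
    (G : Fin c → MvPolynomial (Fin (n + 1)) k) (hG : ∀ i, (G i).IsHomogeneous (d i))
    (r : ℕ) (hr : r = ∑ i, (d i - 1)) (hs : IsSmoothCI G ∨ (c = 1 ∧ ∀ i, d i = 5))
    (L : IntermediateField k (AlgebraicClosure k)) (hL : ContainsSpace G L r) :
    Unirational (fun i => map (algebraMap k L) (G i)) ∧
      DensePoints (fun i => map (algebraMap k L) (G i)) := by
  classical
  have hch : CharZero L := charZero_of_injective_algebraMap (algebraMap k L).injective
  obtain ⟨v, hmem, hli, hv⟩ := hL
  let e : Fin r → Fin (n + 1) → L := fun j l => ⟨v j l, hmem j l⟩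
  have he : LinearIndependent L e := by
    have h1 : LinearIndependent (AlgebraicClosure k)
        (fun j => algebraMap L (AlgebraicClosure k) ∘ e j) := hli
    exact linearIndependent_algebraMap_comp_iff.mp h1
  have hval : ∀ (x : Fin (n + 1) → L) (p : MvPolynomial (Fin (n + 1)) k),
      algebraMap L (AlgebraicClosure k) (aeval x p) =
        aeval (fun l => (x l : AlgebraicClosure k)) p := by
    intro x p
    have : (L.val : L →ₐ[k] AlgebraicClosure k).comp (aeval x) =
        aeval (fun l => (x l : AlgebraicClosure k)) := by
      apply MvPolynomial.algHom_ext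
      intro i; simp
    exact congrArg (fun f => f p) this
  have hiso : ∀ i, ∀ s : Fin r → L, aeval (fun l => ∑ j, s j * e j l) (G i) = 0 := by
    intro i s
    apply (algebraMap L (AlgebraicClosure k)).injective
    rw [map_zero, hval]
    have h1 := (hv (fun j => (s j : AlgebraicClosure k))).1 i
    rw [← h1]
    congr 2
    funext l
    push_cast
    rfl
  rcases hs with hs | ⟨hc, hd5⟩
  · have hs' : Pool.Agent.Work.PDC.SmoothCI G := by
      intro x hx0 hx a ha
      have h1 := Fintype.linearIndependent_iff.mp (hs x hx0 hx) a (by
        funext l
        simpa [Finset.sum_apply] using ha l)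
      funext i
      exact h1 i
    have hcard : ∑ i, d i < Fintype.card (Fin (n + 1)) := by
      rw [Fintype.card_fin]
      omega
    refine Pool.Agent.Work.PDC.final_all d hd hdeg _ (fun i => (hG i).map _) (hs'.map' L) hcard hr
      e he ?_
    intro i s
    rw [aeval_map_algebraMap, ← hiso i s]
    rfl
  · subst hc
    have hr4 : r = 4 := by
      rw [hr, Fin.sum_univ_one, hd5 0]
    subst hr4
    have hF : (map (algebraMap k L) (G 0)).IsHomogeneous 5 := by
      have := hG 0
      rw [hd5 0] at this
      exact this.map _
    obtain ⟨⟨m, P, hP, hdom⟩, hden⟩ := Pool.Agent.Work.PD5.along_final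
      (map (algebraMap k L) (G 0)) hF e he (fun s => by
        rw [aeval_map_algebraMap]
        exact hiso 0 s) (fun s hs0 => along_change L (G 0) v e (fun j l => rfl) (fun s' hs' => by
          by_contra hcon
          push Not at hcon
          have h1 := (hv s').2 hs'
          rw [linearIndependent_unique_iff] at h1
          apply h1
          funext l
          exact hcon l) s hs0)
    have hdvd : ∀ H : MvPolynomial (Fin (n + 1)) L, map (algebraMap k L) (G 0) ∣ H →
        ∀ x : Fin (n + 1) → AlgebraicClosure L,
          (∀ i : Fin 1, aeval x (map (algebraMap k L) (G i)) = 0) → aeval x H = 0 := by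
      rintro H ⟨q, rfl⟩ x hx
      rw [map_mul, hx 0, zero_mul]
    refine ⟨⟨m, P, fun i => ?_, fun H hH => hdvd H (hdom H hH)⟩, fun H hH => hdvd H ?_⟩
    · have hi : i = 0 := Subsingleton.elim _ _
      subst hi
      exact hP
    · refine hden H fun x hx => hH x fun i => ?_
      have hi : i = 0 := Subsingleton.elim _ _
      subst hi
      exact hx

/-- Let `k` be a field of characteristic zero and `X` a complete intersection in `P ^ n` of forms
of degrees `d_i` at least two, with `∑ d_i ≤ n` and with `∑ (d_i - 2) ≤ 2` or `∑ (d_i - 1) ≤ 4`;
let `X` be smooth or a quintic hypersurface (with any singularities). Put `r = ∑ (d_i - 1)` and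
suppose that over the algebraic closure `X` contains a linear space of dimension `r - 1` along
which `X` is smooth, or that `X` is smooth, `2 (r - 1) + c ≤ n` and
`∑ binom (r + d_i - 1) (d_i) ≤ r (n + 1 - r)` (the expected dimension of the variety of these linear
spaces is not negative), or that `X` is a quintic hypersurface with singular locus of dimension at
most `n - 18`.
Then over some finite extension `L` of `k` the variety `X` is unirational and its `L`-points are
Zariski dense; and if `X` contains a linear space of dimension `r - 1` defined over `k`, along which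
it is smooth, then `L = k` will do. -/
theorem result {k : Type*} [Field k] [CharZero k] (n c : ℕ) (d : Fin c → ℕ) (hd : ∀ i, 2 ≤ d i)
    (hdeg : ∑ i, (d i - 2) ≤ 2 ∨ ∑ i, (d i - 1) ≤ 4) (hn : ∑ i, d i ≤ n)
    (G : Fin c → MvPolynomial (Fin (n + 1)) k) (hG : ∀ i, (G i).IsHomogeneous (d i))
    (r : ℕ) (hr : r = ∑ i, (d i - 1)) (hs : IsSmoothCI G ∨ (c = 1 ∧ ∀ i, d i = 5))
    (hlin : ContainsSpace G ⊤ r ∨
      (IsSmoothCI G ∧ 2 * r + c ≤ n + 2 ∧
        ∑ i, (r + d i - 1).choose (d i) ≤ r * (n + 1 - r)) ∨
      (c = 1 ∧ (∀ i, d i = 5) ∧ FewSingular G)) :
    ∃ L : IntermediateField k (AlgebraicClosure k), FiniteDimensional k L ∧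
      (ContainsSpace G ⊥ r → L = ⊥) ∧
      Unirational (fun i => map (algebraMap k L) (G i)) ∧
      DensePoints (fun i => map (algebraMap k L) (G i)) := by
  classical
  have main := main_aux n c d hd hdeg hn G hG r hr hs
  by_cases hk : ContainsSpace G ⊥ r
  · exact ⟨⊥, inferInstance, fun _ => rfl, main ⊥ hk⟩
  · have hcl : ContainsSpace G ⊤ r := by
      rcases hlin with h | ⟨hsm, hn2, h⟩ | ⟨hc, hd5, w, hw, hwx⟩
      · exact h
      · have hrn : r ≤ n := by
          rw [hr]
          exact (Finset.sum_le_sum fun i _ => Nat.sub_le _ _).trans hn
        have hch : CharZero (AlgebraicClosure k) :=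
          charZero_of_injective_algebraMap (algebraMap k (AlgebraicClosure k)).injective
        obtain ⟨e, he, hiso⟩ := Pool.Agent.Work.PDM.exists_space_sharp d
          (fun i => by have := hd i; omega)
          (fun i => map (algebraMap k (AlgebraicClosure k)) (G i)) (fun i => (hG i).map _) r
          (n + 1 - r) (by rw [Fintype.card_fin]; omega) h (by rw [Fintype.card_fin]; omega)
        refine ⟨e, fun _ _ => IntermediateField.mem_top, he, fun s => ?_⟩
        have hz : ∀ i, aeval (fun l => ∑ j, s j * e j l) (G i) = 0 := by
          intro i
          have h1 := hiso i s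
          rw [aeval_map_algebraMap] at h1
          exact h1
        refine ⟨hz, fun hs0 => hsm _ ?_ hz⟩
        intro h0
        apply hs0
        funext j
        refine (Fintype.linearIndependent_iff.mp he) s ?_ j
        rw [← h0]
        funext l
        rw [Finset.sum_apply]
        rfl
      · subst hc
        have hr4 : r = 4 := by
          rw [hr, Fin.sum_univ_one, hd5 0]
        subst hr4
        obtain ⟨e, he, heV, hiso⟩ := Pool.Agent.Work.PD5.exists_along (G 0)
          (by rw [← hd5 0]; exact hG 0) (Submodule.span (AlgebraicClosure k) (Set.range w))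
          (by rw [finrank_span_eq_card hw, Fintype.card_fin])
        refine ⟨e, fun _ _ => IntermediateField.mem_top, he, fun s => ⟨fun i => ?_, fun hs0 => ?_⟩⟩
        · have hi : i = 0 := Subsingleton.elim _ _
          subst hi
          exact hiso s
        · rw [linearIndependent_unique_iff]
          intro h0
          apply hs0
          have hsum : ∀ {q : ℕ} (a : Fin q → AlgebraicClosure k)
              (b : Fin q → Fin (n + 1) → AlgebraicClosure k),
              (fun l => ∑ j, a j * b j l) = ∑ j, a j • b j := by
            intro q a b
            funext l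
            rw [Finset.sum_apply]
            rfl
          have hmem : ∑ j, s j • e j ∈ Submodule.span (AlgebraicClosure k) (Set.range w) :=
            Submodule.sum_mem _ fun j _ => Submodule.smul_mem _ _ (heV j)
          obtain ⟨a, ha⟩ := (Submodule.mem_span_range_iff_exists_fun (AlgebraicClosure k)).mp hmem
          have ha0 : a = 0 := by
            by_contra hne
            obtain ⟨i, l, hil⟩ := hwx a hne
            apply hil
            have hi : i = default := Subsingleton.elim _ _
            subst hi
            rw [hsum a w, ha, ← hsum s e]
            exact congrFun h0 l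
          rw [ha0] at ha
          simp only [Pi.zero_apply, zero_smul, Finset.sum_const_zero] at ha
          funext j
          exact (Fintype.linearIndependent_iff.mp he) s ha.symm j
    obtain ⟨v, -, hli, hv⟩ := hcl
    let S : Set (AlgebraicClosure k) := Set.range (fun p : Fin r × Fin (n + 1) => v p.1 p.2)
    let L : IntermediateField k (AlgebraicClosure k) := IntermediateField.adjoin k S
    have hfin : FiniteDimensional k L := by
      have : Finite S := Set.finite_range _
      exact IntermediateField.finiteDimensional_adjoin fun x _ =>
        (Algebra.IsAlgebraic.isAlgebraic x).isIntegral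
    exact ⟨L, hfin, fun h => absurd h hk, main L ⟨v, fun j l =>
      IntermediateField.subset_adjoin k S ⟨(j, l), rfl⟩, hli, hv⟩⟩

end Pool.Agent.Results.MP_b62148_ag.SmallDegrees
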